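import Mathlib
import Pool.Agent.H463R3.PSLn

/-!
# Equality in the conjugate-generation bound, for every prime `r > 3`, by elements of every order

For every prime `r > 3` and every finite field `F` whose number of elements is a primitive root
modulo `r`, the class of the transvections of `S = PSL_{r-1}(F)` satisfies
`β_{r,S}(x) = r - 1 = b(r)`, and `x` has order the characteristic of `F`.  By the theorem of
Dirichlet there are, for every `r > 3`, infinitely many primes among the orders of these `x`.
-/

set_option autoImplicit false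

open Matrix Matrix.SpecialLinearGroup
open scoped MatrixGroups commutatorElement

namespace Pool.Agent.Results.MP_462fed_al.EveryPrime

/-- The subgroup `⟨S, x⟩` of `Aut(S)`, where `S` is identified with its group of inner
automorphisms. -/
def extendBy (S : Type) [Group S] (x : MulAut S) : Subgroup (MulAut S) :=
  (MulAut.conj : S →* MulAut S).range ⊔ Subgroup.zpowers x

/-- The set of all `m ≥ 1` such that some `m` (not necessarily distinct) conjugates of `x` in
`⟨S, x⟩` generate a subgroup of order divisible by `r`. -/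
def generationNumbers (r : ℕ) (S : Type) [Group S] (x : MulAut S) : Set ℕ :=
  {m | 1 ≤ m ∧ ∃ y : Fin m → MulAut S,
    (∀ i, ∃ g ∈ extendBy S x, y i = g * x * g⁻¹) ∧
      r ∣ Nat.card (Subgroup.closure (Set.range y))}

/-- `β_{r,S}(x)`: the least element of `generationNumbers r S x`. -/
noncomputable def beta (r : ℕ) (S : Type) [Group S] (x : MulAut S) : ℕ :=
  sInf (generationNumbers r S x)

/-- `b(r) = 3` if `r = 3`, and `b(r) = r - 1` if `r > 3`. -/
def b (r : ℕ) : ℕ := if r = 3 then 3 else r - 1

/-- The statement of Q1. -/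
def Q1 : Prop :=
  ∀ (S : Type) [Group S] [Finite S], IsSimpleGroup S → (∃ u v : S, u * v ≠ v * u) →
    ∀ r : ℕ, r.Prime → r ≠ 2 → r ∣ Nat.card S →
      ∀ x : MulAut S, x ≠ 1 → beta r S x = b r → orderOf x = 2

/-! ### The groups -/

section General

variable {n : ℕ} {F : Type} [Field F]

/-- the quotient map -/
abbrev pr (n : ℕ) (F : Type) [Field F] :
    SpecialLinearGroup (Fin n) F →* Matrix.ProjectiveSpecialLinearGroup (Fin n) F :=
  QuotientGroup.mk' (Subgroup.center (SpecialLinearGroup (Fin n) F))

/-- the composite `SL → PSL → Aut(PSL)` -/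
noncomputable abbrev toAut (n : ℕ) (F : Type) [Field F] :
    SpecialLinearGroup (Fin n) F →* MulAut (Matrix.ProjectiveSpecialLinearGroup (Fin n) F) :=
  (MulAut.conj : Matrix.ProjectiveSpecialLinearGroup (Fin n) F →*
    MulAut (Matrix.ProjectiveSpecialLinearGroup (Fin n) F)).comp (pr n F)

lemma simple (hn : 3 ≤ n) : IsSimpleGroup (Matrix.ProjectiveSpecialLinearGroup (Fin n) F) :=
  Pool.Agent.H463R3.PSLn.isSimpleGroup_PSL (by simpa using hn)

lemma pr_transvection_ne_one {i j : Fin n} (hij : i ≠ j) :
    pr n F (SpecialLinearGroup.transvection hij 1) ≠ 1 := by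
  intro h
  rw [QuotientGroup.mk'_apply, QuotientGroup.eq_one_iff, transvection_mem_center_iff] at h
  exact one_ne_zero h

lemma nonabelian (hn : 3 ≤ n) :
    ∃ u v : Matrix.ProjectiveSpecialLinearGroup (Fin n) F, u * v ≠ v * u := by
  have h01 : (⟨0, by omega⟩ : Fin n) ≠ ⟨1, by omega⟩ := by simp
  have h12 : (⟨1, by omega⟩ : Fin n) ≠ ⟨2, by omega⟩ := by simp
  have h02 : (⟨0, by omega⟩ : Fin n) ≠ ⟨2, by omega⟩ := by simp
  refine ⟨pr n F (SpecialLinearGroup.transvection h01 1),
    pr n F (SpecialLinearGroup.transvection h12 1), fun h => ?_⟩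
  have h1 := Pool.Agent.H463R3.PSLn.transvection_commutator (F := F) h02 h01 h12 1
  have h2 := pr_transvection_ne_one (F := F) h02
  rw [← h1, map_commutatorElement] at h2
  exact h2 (commutatorElement_eq_one_iff_mul_comm.2 h)

lemma conj_injective (hn : 3 ≤ n) :
    Function.Injective (MulAut.conj : Matrix.ProjectiveSpecialLinearGroup (Fin n) F →*
      MulAut (Matrix.ProjectiveSpecialLinearGroup (Fin n) F)) := by
  have := simple (F := F) hn
  rw [injective_iff_map_eq_one]
  intro a ha
  have hc : Subgroup.center (Matrix.ProjectiveSpecialLinearGroup (Fin n) F) = ⊥ := by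
    rcases (inferInstance : (Subgroup.center
      (Matrix.ProjectiveSpecialLinearGroup (Fin n) F)).Normal).eq_bot_or_eq_top with h | h
    · exact h
    · obtain ⟨u, v, huv⟩ := nonabelian (F := F) hn
      have : u ∈ Subgroup.center (Matrix.ProjectiveSpecialLinearGroup (Fin n) F) :=
        h ▸ Subgroup.mem_top u
      exact absurd ((Subgroup.mem_center_iff.1 this v).symm) huv
  have : a ∈ Subgroup.center (Matrix.ProjectiveSpecialLinearGroup (Fin n) F) := by
    rw [Subgroup.mem_center_iff]
    intro g
    have h1 : MulAut.conj a g = g := by rw [ha]; rfl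
    rw [MulAut.conj_apply] at h1
    calc g * a = (a * g * a⁻¹) * a := by rw [h1]
      _ = a * g := by group
  rw [hc] at this
  exact Subgroup.mem_bot.1 this

lemma toAut_ne_one (hn : 3 ≤ n) {g : SpecialLinearGroup (Fin n) F} (hg : pr n F g ≠ 1) :
    toAut n F g ≠ 1 := by
  intro h
  have h1 : MulAut.conj (pr n F g) = MulAut.conj 1 := by
    rw [map_one]; exact h
  exact hg (conj_injective hn h1)

/-! ### The transvections -/

/-- A permutation matrix conjugates transvections to transvections. -/
lemma conj_transvection (hn : 4 ≤ n) {i j k l : Fin n} (hij : i ≠ j) (hkl : k ≠ l) :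
    ∃ g : SpecialLinearGroup (Fin n) F,
      g * SpecialLinearGroup.transvection hij 1 * g⁻¹ = SpecialLinearGroup.transvection hkl 1 := by
  classical
  -- a permutation moving `k, l` to `i, j`
  obtain ⟨s, hs1, hs2⟩ : ∃ s : Equiv.Perm (Fin n), s k = i ∧ s l = j := by
    refine ⟨Equiv.swap ((Equiv.swap k i) l) j * Equiv.swap k i, ?_, ?_⟩
    · rw [Equiv.Perm.mul_apply, Equiv.swap_apply_left]
      apply Equiv.swap_apply_of_ne_of_ne
      · intro h
        have : (Equiv.swap k i) k = (Equiv.swap k i) l := by rw [Equiv.swap_apply_left]; exact h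
        exact hkl ((Equiv.swap k i).injective this)
      · exact hij
    · rw [Equiv.Perm.mul_apply, Equiv.swap_apply_left]
  -- an even one
  obtain ⟨s, hs1, hs2, hs3⟩ : ∃ s : Equiv.Perm (Fin n), s k = i ∧ s l = j ∧
      Equiv.Perm.sign s = 1 := by
    rcases Int.units_eq_one_or (Equiv.Perm.sign s) with h | h
    · exact ⟨s, hs1, hs2, h⟩
    · obtain ⟨a, ha⟩ : ∃ a : Fin n, a ∉ ({k, l} : Finset (Fin n)) := by
        by_contra hcon
        push Not at hcon
        have h1 : Fintype.card (Fin n) ≤ ({k, l} : Finset (Fin n)).card :=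
          Finset.card_le_card (fun x _ => hcon x)
        have h2 : ({k, l} : Finset (Fin n)).card ≤ 2 := Finset.card_le_two
        simp at h1
        omega
      obtain ⟨c, hc⟩ : ∃ c : Fin n, c ∉ ({k, l, a} : Finset (Fin n)) := by
        by_contra hcon
        push Not at hcon
        have h1 : Fintype.card (Fin n) ≤ ({k, l, a} : Finset (Fin n)).card :=
          Finset.card_le_card (fun x _ => hcon x)
        have h2 : ({k, l, a} : Finset (Fin n)).card ≤ 3 := Finset.card_le_three
        simp at h1
        omega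
      simp only [Finset.mem_insert, Finset.mem_singleton, not_or] at ha hc
      refine ⟨s * Equiv.swap a c, ?_, ?_, ?_⟩
      · rw [Equiv.Perm.mul_apply, Equiv.swap_apply_of_ne_of_ne (Ne.symm ha.1) (Ne.symm hc.1), hs1]
      · rw [Equiv.Perm.mul_apply, Equiv.swap_apply_of_ne_of_ne (Ne.symm ha.2) (Ne.symm hc.2.1),
          hs2]
      · rw [Equiv.Perm.sign_mul, h, Equiv.Perm.sign_swap (Ne.symm hc.2.2)]
        decide
  obtain ⟨P, hP⟩ : ∃ P : SpecialLinearGroup (Fin n) F, P.1 = s.permMatrix F :=
    ⟨⟨s.permMatrix F, by rw [Matrix.det_permutation, hs3]; simp⟩, rfl⟩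
  refine ⟨P, ?_⟩
  rw [mul_inv_eq_iff_eq_mul]
  apply Subtype.ext
  simp only [coe_mul, transvection_coe]
  rw [hP]
  ext a c
  rw [Matrix.mul_add, Matrix.add_mul, Matrix.mul_one, Matrix.one_mul, Matrix.add_apply,
    Matrix.add_apply]
  congr 1
  rw [Matrix.mul_apply, Matrix.mul_apply]
  simp only [Matrix.single_apply, Equiv.Perm.permMatrix, PEquiv.toMatrix_apply,
    Equiv.toPEquiv_apply, Option.mem_some_iff]
  rw [Finset.sum_eq_single (s a), Finset.sum_eq_single l]
  · have e1 : (k = a) ↔ (i = s a) := by
      rw [← hs1]; exact s.injective.eq_iff.symm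
    by_cases h : k = a
    · have h' : i = s a := e1.1 h
      simp [h, h', hs2]
    · have h' : ¬ i = s a := fun h' => h (e1.2 h')
      simp [h, h']
  · intro d _ hd
    simp [Ne.symm hd]
  · simp
  · intro d _ hd
    simp [Ne.symm hd]
  · simp

lemma transvection_pow {i j : Fin n} (hij : i ≠ j) (m : ℕ) :
    (SpecialLinearGroup.transvection hij (1 : F)) ^ m =
      SpecialLinearGroup.transvection hij (m : F) := by
  induction m with
  | zero => simp
  | succ m ih => rw [pow_succ, ih, ← transvection_add]; push_cast; rfl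

/-- the subgroup generated by the transvections of an oriented `n`-cycle contains all elementary
transvections with coefficient one -/
lemma cycle_closure {H : Subgroup (SpecialLinearGroup (Fin n) F)}
    (h1 : ∀ (a : ℕ) (ha : a + 1 < n) (h : (⟨a, by omega⟩ : Fin n) ≠ ⟨a + 1, ha⟩),
      SpecialLinearGroup.transvection h 1 ∈ H)
    (h2 : ∀ (hn : 1 < n) (h : (⟨n - 1, by omega⟩ : Fin n) ≠ ⟨0, by omega⟩),
      SpecialLinearGroup.transvection h 1 ∈ H)
    {i j : Fin n} (hij : i ≠ j) : SpecialLinearGroup.transvection hij 1 ∈ H := by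
  let R : Fin n → Fin n → Prop := fun i j =>
    ∀ h : i ≠ j, SpecialLinearGroup.transvection h 1 ∈ H
  have htr : ∀ i j k, R i k → R k j → R i j := by
    intro i j k hik hkj hij
    by_cases e1 : i = k
    · subst e1; exact hkj hij
    · by_cases e2 : k = j
      · subst e2; exact hik hij
      · rw [← Pool.Agent.H463R3.PSLn.transvection_commutator hij e1 e2 1]
        have := hik e1
        have := hkj e2
        rw [commutatorElement_def]
        exact mul_mem (mul_mem (mul_mem (hik e1) (hkj e2)) (inv_mem (hik e1))) (inv_mem (hkj e2))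
  have hle : ∀ (a c : ℕ) (hac : a ≤ c) (hc : c < n), R ⟨a, by omega⟩ ⟨c, hc⟩ := by
    intro a c hac
    induction c, hac using Nat.le_induction with
    | base => intro hc h; exact absurd rfl h
    | succ c hac ih =>
      intro hc
      exact htr _ _ ⟨c, by omega⟩ (ih (by omega)) (h1 c hc)
  have hn : 1 < n := by
    have := i.2
    have := j.2
    by_contra hcon
    exact hij (Fin.ext (by omega))
  exact htr i j ⟨n - 1, by omega⟩ (hle i (n - 1) (by omega) (by omega))
    (htr _ _ ⟨0, by omega⟩ (h2 hn) (hle 0 j (Nat.zero_le _) j.2)) hij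

end General

/-! ### The lower bound -/

section Lower

variable {n : ℕ} {F : Type} [Field F]

lemma t_smul_eq {i j : Fin n} (hij : i ≠ j) {w : Fin n → F} (h : w j = 0) :
    SpecialLinearGroup.transvection hij (1 : F) • w = w := by
  rw [Matrix.SpecialLinearGroup.smul_def]
  change (SpecialLinearGroup.transvection hij (1 : F)).1 *ᵥ w = w
  rw [transvection_coe, add_mulVec, one_mulVec, Matrix.single_mulVec_eq]
  simp [h]

/-- Fewer than `n` conjugates of a transvection fix a common nonzero vector. -/
lemma exists_common_fixed {m : ℕ} (hm : m < n) {i j : Fin n} (hij : i ≠ j)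
    (g : Fin m → SpecialLinearGroup (Fin n) F) :
    ∃ v : Fin n → F, v ≠ 0 ∧
      ∀ k, (g k * SpecialLinearGroup.transvection hij 1 * (g k)⁻¹) • v = v := by
  let L : (Fin n → F) →ₗ[F] (Fin m → F) :=
    LinearMap.pi (fun k => (LinearMap.proj j).comp
      (Matrix.mulVecLin ((g k)⁻¹ : SpecialLinearGroup (Fin n) F).1))
  have hker : LinearMap.ker L ≠ ⊥ := by
    apply LinearMap.ker_ne_bot_of_finrank_lt
    simpa using hm
  obtain ⟨v, hv, hv0⟩ := Submodule.exists_mem_ne_zero_of_ne_bot hker
  refine ⟨v, hv0, fun k => ?_⟩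
  have h1 : ((g k)⁻¹ • v) j = 0 := congrFun (LinearMap.mem_ker.1 hv) k
  rw [mul_smul, mul_smul, t_smul_eq hij h1, smul_inv_smul]

/-- An element of prime order `r` of `SL_n(F)` fixes no nonzero vector, when the order of `|F|`
modulo `r` is `n`. -/
lemma no_fixed [Finite F] {r : ℕ} (hr : r.Prime)
    (hord : orderOf ((Nat.card F : ℕ) : ZMod r) = n)
    {h : SpecialLinearGroup (Fin n) F} (h5 : orderOf h = r) {v : Fin n → F} (hv : v ≠ 0) :
    h • v ≠ v := by
  intro hfix
  have : Fact r.Prime := ⟨hr⟩
  let A : Submodule F (Fin n → F) :=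
    { carrier := {w | h • w = w}
      add_mem' := fun {a c} ha hc => by
        change h • (a + c) = a + c
        rw [smul_add, ha, hc]
      zero_mem' := smul_zero h
      smul_mem' := fun c w hw => by
        change h • (c • w) = c • w
        have hw' : h.1 *ᵥ w = w := hw
        rw [Matrix.SpecialLinearGroup.smul_def]
        change h.1 *ᵥ (c • w) = c • w
        rw [Matrix.mulVec_smul, hw'] }
  have hcardV : Nat.card (Fin n → F) = Nat.card F ^ n := by
    rw [Module.natCard_eq_pow_finrank (K := F), Module.finrank_fin_fun]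
  have hA : Nat.card A = Nat.card F ^ Module.finrank F A := Module.natCard_eq_pow_finrank
  have hP : IsPGroup r (Subgroup.zpowers h) :=
    IsPGroup.of_card (n := 1) (by rw [Nat.card_zpowers, h5, pow_one])
  have hmod := hP.card_modEq_card_fixedPoints (Fin n → F)
  have hfp : MulAction.fixedPoints (Subgroup.zpowers h) (Fin n → F) = (A : Set (Fin n → F)) := by
    ext w
    constructor
    · intro hw
      exact hw ⟨h, Subgroup.mem_zpowers h⟩
    · rintro hw ⟨k, hk⟩
      obtain ⟨e, rfl⟩ := Subgroup.mem_zpowers_iff.1 hk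
      have hst : h ∈ MulAction.stabilizer (SpecialLinearGroup (Fin n) F) w := hw
      exact (MulAction.stabilizer (SpecialLinearGroup (Fin n) F) w).zpow_mem hst e
  rw [hfp, hcardV] at hmod
  have hmod' : Nat.card F ^ n ≡ Nat.card A [MOD r] := hmod
  rw [hA, ← ZMod.natCast_eq_natCast_iff] at hmod'
  push_cast at hmod'
  have hq : ((Nat.card F : ℕ) : ZMod r) ^ n = 1 := by
    rw [← orderOf_dvd_iff_pow_eq_one, hord]
  rw [hq] at hmod'
  have hdvd : n ∣ Module.finrank F A := by
    have := orderOf_dvd_of_pow_eq_one hmod'.symm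
    rwa [hord] at this
  have hle : Module.finrank F A ≤ n := by
    have := Submodule.finrank_le A
    rwa [Module.finrank_fin_fun] at this
  rcases Nat.eq_zero_or_pos (Module.finrank F A) with h0 | hpos
  · have hbot : A = ⊥ := Submodule.finrank_eq_zero.1 h0
    have : v ∈ A := hfix
    rw [hbot] at this
    exact hv ((Submodule.mem_bot F).1 this)
  · have hAn : Module.finrank F A = n := le_antisymm hle (Nat.le_of_dvd hpos hdvd)
    have hAtop : A = ⊤ := by
      apply Submodule.eq_top_of_finrank_eq
      rw [hAn, Module.finrank_fin_fun]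
    have h1 : h = 1 := by
      apply Subtype.ext
      apply Matrix.ext_iff_smul.2
      intro w
      have hw : w ∈ A := hAtop ▸ Submodule.mem_top
      have hw' : h • w = w := hw
      rw [Matrix.SpecialLinearGroup.smul_def] at hw'
      simpa using! hw'
    rw [h1, orderOf_one] at h5
    exact hr.one_lt.ne h5

lemma not_dvd [Finite F] {r : ℕ} (hr : r.Prime)
    (hord : orderOf ((Nat.card F : ℕ) : ZMod r) = n)
    {m : ℕ} (hm : m < n) {i j : Fin n} (hij : i ≠ j)
    (g : Fin m → SpecialLinearGroup (Fin n) F) :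
    ¬ r ∣ Nat.card (Subgroup.closure (Set.range fun k =>
      g k * SpecialLinearGroup.transvection hij 1 * (g k)⁻¹)) := by
  intro hdvd
  have : Fact r.Prime := ⟨hr⟩
  obtain ⟨⟨h, hh⟩, ho⟩ := exists_prime_orderOf_dvd_card' r hdvd
  obtain ⟨v, hv, hfix⟩ := exists_common_fixed hm hij g
  have hle : Subgroup.closure (Set.range fun k =>
      g k * SpecialLinearGroup.transvection hij 1 * (g k)⁻¹) ≤
      MulAction.stabilizer (SpecialLinearGroup (Fin n) F) v := by
    rw [Subgroup.closure_le]
    rintro _ ⟨i, rfl⟩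
    exact hfix i
  have h5 : orderOf h = r := by
    rw [← ho]
    exact (Subgroup.orderOf_mk h hh).symm
  exact no_fixed hr hord h5 hv (hle hh)

end Lower

/-! ### Elements of order `r` -/

section Order

/-- For primes `p` and `r = n + 1` with `p` not congruent to `0, 1` modulo `r`, the group `SL_n(p)`
contains an element of order `r`. -/
lemma exists_order {n p r : ℕ} [Fact p.Prime] (hr : r.Prime) (hrn : r = n + 1) (hpr : p ≠ r)
    (h1 : ¬ r ∣ p - 1) : ∃ g : SpecialLinearGroup (Fin n) (ZMod p), orderOf g = r := by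
  have : Fact r.Prime := ⟨hr⟩
  have hp : p.Prime := Fact.out
  have hn : 0 < n := by
    have := hr.one_lt
    omega
  have hdvd : r ∣ Nat.card (GL (Fin n) (ZMod p)) := by
    rw [Matrix.card_GL_field]
    refine Dvd.dvd.trans ?_ (Finset.dvd_prod_of_mem _ (Finset.mem_univ (⟨0, hn⟩ : Fin n)))
    simp only [ZMod.card, pow_zero]
    have hcop : Nat.Coprime p r := (Nat.coprime_primes hp hr).2 hpr
    have h2 := Nat.ModEq.pow_totient hcop
    rw [Nat.totient_prime hr, hrn, Nat.add_sub_cancel, ← hrn] at h2
    exact (Nat.modEq_iff_dvd' (Nat.one_le_pow _ _ hp.pos)).1 h2.symm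
  obtain ⟨g, hg⟩ := exists_prime_orderOf_dvd_card' r hdvd
  have hdet : Matrix.GeneralLinearGroup.det g = 1 := by
    have e1 : (Matrix.GeneralLinearGroup.det g) ^ r = 1 := by
      rw [← map_pow, ← hg, pow_orderOf_eq_one, map_one]
    have e2 : (Matrix.GeneralLinearGroup.det g) ^ (p - 1) = 1 := ZMod.units_pow_card_sub_one_eq_one p _
    have e3 : orderOf (Matrix.GeneralLinearGroup.det g) ∣ r := orderOf_dvd_of_pow_eq_one e1
    have e4 : orderOf (Matrix.GeneralLinearGroup.det g) ∣ p - 1 := orderOf_dvd_of_pow_eq_one e2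
    rcases (Nat.dvd_prime hr).1 e3 with h | h
    · exact orderOf_eq_one_iff.1 h
    · exact absurd (h ▸ e4) h1
  have hdet' : g.1.det = 1 := by
    have := congrArg Units.val hdet
    simpa using! this
  obtain ⟨g', hg'⟩ : ∃ g' : SpecialLinearGroup (Fin n) (ZMod p), g'.1 = g.1 := ⟨⟨g.1, hdet'⟩, rfl⟩
  refine ⟨g', ?_⟩
  have hinj : Function.Injective (Matrix.SpecialLinearGroup.toGL (n := Fin n) (R := ZMod p)) :=
    Matrix.SpecialLinearGroup.toGL_injective
  have e : Matrix.SpecialLinearGroup.toGL g' = g := Units.ext hg'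
  rw [← hg, ← e]
  exact (orderOf_injective _ hinj g').symm

end Order

/-! ### The upper bound and the value of `β` -/

section Main

variable {n : ℕ} {F : Type} [Field F]

/-- a subgroup containing the elementary transvections with coefficient one contains an element of
order `r` -/
lemma exists_order_mem {p r : ℕ} [Fact p.Prime] [CharP F p] (hr : r.Prime) (hrn : r = n + 1)
    (hpr : p ≠ r) (h1 : ¬ r ∣ p - 1) (hn : 3 ≤ n)
    {H : Subgroup (SpecialLinearGroup (Fin n) F)}
    (hH : ∀ (i j : Fin n) (hij : i ≠ j), SpecialLinearGroup.transvection hij 1 ∈ H) :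
    ∃ g ∈ H, orderOf g = r := by
  have : Nontrivial (Fin n) := Fin.nontrivial_iff_two_le.2 (by omega)
  obtain ⟨g, hg⟩ := exists_order (p := p) hr hrn hpr h1
  let φ : SpecialLinearGroup (Fin n) (ZMod p) →* SpecialLinearGroup (Fin n) F :=
    Matrix.SpecialLinearGroup.map (ZMod.castHom (dvd_refl p) F)
  refine ⟨φ g, ?_, ?_⟩
  · refine Pool.Agent.H463R3.PSLn.transvection_induction (P := fun A => φ A ∈ H) ?_ ?_ g
    · intro i j h c
      have e : φ (SpecialLinearGroup.transvection h c) =
          (SpecialLinearGroup.transvection h 1) ^ c.val := by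
        rw [transvection_pow]
        apply Subtype.ext
        change (ZMod.castHom (dvd_refl p) F).mapMatrix (SpecialLinearGroup.transvection h c).1 = _
        rw [transvection_coe, transvection_coe, map_add, map_one, RingHom.mapMatrix_apply,
          Matrix.map_single, ZMod.castHom_apply, ← ZMod.natCast_val]
      change φ (SpecialLinearGroup.transvection h c) ∈ H
      rw [e]
      exact Subgroup.pow_mem _ (hH i j h) _
    · intro A B hA hB
      rw [map_mul]
      exact mul_mem hA hB
  · have hinj : Function.Injective φ := by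
      intro A B hAB
      apply Subtype.ext
      ext i j
      have h2 : (ZMod.castHom (dvd_refl p) F) (A.1 i j) = (ZMod.castHom (dvd_refl p) F) (B.1 i j) :=
        congrFun (congrFun (congrArg Subtype.val hAB) i) j
      exact (ZMod.castHom (dvd_refl p) F).injective h2
    rw [orderOf_injective φ hinj, hg]

lemma pr_ne_one {r : ℕ} (hrn : r = n + 1) (hn : 0 < n)
    {g : SpecialLinearGroup (Fin n) F} (hg : orderOf g = r) : pr n F g ≠ 1 := by
  intro h
  rw [QuotientGroup.mk'_apply, QuotientGroup.eq_one_iff, mem_center_iff] at h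
  obtain ⟨a, ha, hag⟩ := h
  rw [Fintype.card_fin] at ha
  have e := Matrix.SpecialLinearGroup.coe_pow g n
  rw [← hag, ← map_pow, ha, map_one] at e
  have h2 : g ^ n = 1 := Subtype.ext e
  have h3 := orderOf_dvd_of_pow_eq_one h2
  rw [hg, hrn] at h3
  have := Nat.le_of_dvd hn h3
  omega

lemma extendBy_toAut (g : SpecialLinearGroup (Fin n) F) :
    extendBy (Matrix.ProjectiveSpecialLinearGroup (Fin n) F) (toAut n F g) =
      (MulAut.conj : Matrix.ProjectiveSpecialLinearGroup (Fin n) F →*
        MulAut (Matrix.ProjectiveSpecialLinearGroup (Fin n) F)).range := by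
  unfold extendBy
  rw [sup_eq_left, Subgroup.zpowers_le]
  exact ⟨pr n F g, rfl⟩

lemma orderOf_x {p : ℕ} [Fact p.Prime] [CharP F p] (hn : 3 ≤ n) {i j : Fin n} (hij : i ≠ j) :
    orderOf (toAut n F (SpecialLinearGroup.transvection hij 1)) = p := by
  apply orderOf_eq_prime
  · rw [← map_pow, transvection_pow, CharP.cast_eq_zero, transvection_coeff_zero, map_one]
  · exact toAut_ne_one hn (pr_transvection_ne_one hij)

lemma n_mem {p r : ℕ} [Fact p.Prime] [CharP F p] (hr : r.Prime) (hrn : r = n + 1)
    (hpr : p ≠ r) (h1 : ¬ r ∣ p - 1) (hn : 4 ≤ n) {i j : Fin n} (hij : i ≠ j) :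
    n ∈ generationNumbers r (Matrix.ProjectiveSpecialLinearGroup (Fin n) F)
      (toAut n F (SpecialLinearGroup.transvection hij 1)) := by
  have : Fact r.Prime := ⟨hr⟩
  let c : Fin n → Fin n := fun k => if h : k.1 + 1 < n then ⟨k.1 + 1, h⟩ else ⟨0, by omega⟩
  have hc : ∀ k, k ≠ c k := by
    intro k hk
    have h2 := congrArg Fin.val hk
    have := k.2
    by_cases h : k.1 + 1 < n
    · simp [c, h] at h2
    · simp [c, h] at h2
      omega
  choose g hg using fun k => conj_transvection (F := F) hn hij (hc k)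
  refine ⟨by omega, fun k => toAut n F (SpecialLinearGroup.transvection (hc k) 1),
    fun k => ⟨toAut n F (g k), ?_, ?_⟩, ?_⟩
  · rw [extendBy_toAut]
    exact ⟨pr n F (g k), rfl⟩
  · rw [← map_mul, ← map_inv, ← map_mul, hg]
  · set H := Subgroup.closure (Set.range fun k =>
      (SpecialLinearGroup.transvection (hc k) 1 : SpecialLinearGroup (Fin n) F)) with hH
    have hmem : ∀ (k l : Fin n) (_ : l = c k) (h : k ≠ l),
        (SpecialLinearGroup.transvection h 1 : SpecialLinearGroup (Fin n) F) ∈ H := by
      rintro k _ rfl h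
      exact Subgroup.subset_closure ⟨k, rfl⟩
    have hall : ∀ (k l : Fin n) (h : k ≠ l),
        (SpecialLinearGroup.transvection h 1 : SpecialLinearGroup (Fin n) F) ∈ H := by
      intro k l h
      refine cycle_closure ?_ ?_ h
      · intro a ha h'
        refine hmem _ _ ?_ h'
        simp [c, ha]
      · intro hn' h'
        refine hmem _ _ ?_ h'
        have : ¬ (n - 1 + 1 < n) := by omega
        simp [c, this]
    obtain ⟨w, hw, hwo⟩ := exists_order_mem (p := p) hr hrn hpr h1 (by omega) hall
    have hrange : (Set.range fun k => toAut n F (SpecialLinearGroup.transvection (hc k) 1)) =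
        toAut n F '' (Set.range fun k =>
          (SpecialLinearGroup.transvection (hc k) 1 : SpecialLinearGroup (Fin n) F)) := by
      rw [← Set.range_comp]
      rfl
    rw [hrange, ← MonoidHom.map_closure, ← hH]
    have hw' : toAut n F w ∈ H.map (toAut n F) := ⟨w, hw, rfl⟩
    have ho : orderOf (toAut n F w) = r := by
      apply orderOf_eq_prime
      · rw [← map_pow, ← hwo, pow_orderOf_eq_one, map_one]
      · exact toAut_ne_one (by omega) (pr_ne_one hrn (by omega) hwo)
    have h := orderOf_dvd_natCard (⟨toAut n F w, hw'⟩ : H.map (toAut n F))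
    rwa [Subgroup.orderOf_mk, ho] at h

lemma n_le [Finite F] {r : ℕ} (hr : r.Prime)
    (hord : orderOf ((Nat.card F : ℕ) : ZMod r) = n) {i j : Fin n} (hij : i ≠ j)
    {m : ℕ} (hm : m ∈ generationNumbers r (Matrix.ProjectiveSpecialLinearGroup (Fin n) F)
      (toAut n F (SpecialLinearGroup.transvection hij 1))) : n ≤ m := by
  by_contra hlt
  push Not at hlt
  obtain ⟨_, y, hy, hdvd⟩ := hm
  rw [extendBy_toAut] at hy
  choose g hg hyg using hy
  choose s hs using hg
  choose g' hg' using fun i => QuotientGroup.mk'_surjective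
    (Subgroup.center (SpecialLinearGroup (Fin n) F)) (s i)
  have hyi : ∀ k, y k = toAut n F (g' k * SpecialLinearGroup.transvection hij 1 * (g' k)⁻¹) := by
    intro k
    rw [hyg, ← hs, ← hg', map_mul, map_mul, map_inv]
    rfl
  have hrange : Set.range y = toAut n F '' (Set.range fun k =>
      g' k * SpecialLinearGroup.transvection hij 1 * (g' k)⁻¹) := by
    ext z
    constructor
    · rintro ⟨i, rfl⟩
      exact ⟨_, ⟨i, rfl⟩, (hyi i).symm⟩
    · rintro ⟨_, ⟨i, rfl⟩, rfl⟩
      exact ⟨i, hyi i⟩
  rw [hrange, ← MonoidHom.map_closure] at hdvd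
  exact not_dvd hr hord hlt hij g' (hdvd.trans (Subgroup.card_map_dvd _ _))

/-- the value of `β` for the transvections -/
theorem beta_eq [Finite F] {p r : ℕ} [Fact p.Prime] [CharP F p] (hr : r.Prime) (h3 : 3 < r)
    (hrn : r = n + 1) (hord : orderOf ((Nat.card F : ℕ) : ZMod r) = n)
    {i j : Fin n} (hij : i ≠ j) :
    beta r (Matrix.ProjectiveSpecialLinearGroup (Fin n) F)
      (toAut n F (SpecialLinearGroup.transvection hij 1)) = n ∧
    r ∣ Nat.card (Matrix.ProjectiveSpecialLinearGroup (Fin n) F) := by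
  have : Fact r.Prime := ⟨hr⟩
  have hp : p.Prime := Fact.out
  have hn4 : 4 ≤ n := by
    rcases Nat.lt_or_ge n 4 with h | h
    · have : r = 4 := by omega
      rw [this] at hr
      exact absurd hr (by norm_num)
    · exact h
  obtain ⟨k, hk⟩ : ∃ k : ℕ, Nat.card F = p ^ k := by
    have := Fintype.ofFinite F
    obtain ⟨k, _, hk⟩ := FiniteField.card F p
    exact ⟨k, by rw [Nat.card_eq_fintype_card, hk]⟩
  have hq : ((Nat.card F : ℕ) : ZMod r) ^ n = 1 := by
    have := pow_orderOf_eq_one ((Nat.card F : ℕ) : ZMod r)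
    rwa [hord] at this
  have hpr : p ≠ r := by
    rintro rfl
    have h0 : ((Nat.card F : ℕ) : ZMod p) = 0 := by
      rw [hk]
      rcases Nat.eq_zero_or_pos k with rfl | hkp
      · exfalso
        rw [pow_zero] at hk
        have := Finite.one_lt_card (α := F)
        omega
      · push_cast
        rw [CharP.cast_eq_zero (ZMod p) p, zero_pow hkp.ne']
    rw [h0, zero_pow (by omega)] at hq
    exact zero_ne_one hq
  have h1 : ¬ r ∣ p - 1 := by
    intro hdvd
    have h2 : (p : ZMod r) = 1 := by
      have h4 : ((p - 1 : ℕ) : ZMod r) = 0 := (ZMod.natCast_eq_zero_iff _ _).2 hdvd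
      have h5 : p = (p - 1) + 1 := by
        have := hp.one_lt
        omega
      rw [h5]
      push_cast
      rw [h4, zero_add]
    rw [hk] at hord
    push_cast at hord
    rw [h2, one_pow, orderOf_one] at hord
    omega
  refine ⟨?_, ?_⟩
  · apply le_antisymm
    · exact Nat.sInf_le (n_mem (p := p) hr hrn hpr h1 hn4 hij)
    · exact n_le hr hord hij (Nat.sInf_mem ⟨n, n_mem (p := p) hr hrn hpr h1 hn4 hij⟩)
  · obtain ⟨w, _, hwo⟩ := exists_order_mem (p := p) (F := F) hr hrn hpr h1 (by omega)
      (H := ⊤) (fun _ _ _ => Subgroup.mem_top _)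
    have ho : orderOf (pr n F w) = r := by
      apply orderOf_eq_prime
      · rw [← map_pow, ← hwo, pow_orderOf_eq_one, map_one]
      · exact pr_ne_one hrn (by omega) hwo
    exact ho ▸ orderOf_dvd_natCard (pr n F w)

end Main

/-- the image in `Aut(S)`, `S = PSL_n(F)`, of the elementary transvection with `1` in position
`(i, j)` -/
noncomputable def x {n : ℕ} (F : Type) [Field F] {i j : Fin n} (hij : i ≠ j) :
    MulAut (Matrix.ProjectiveSpecialLinearGroup (Fin n) F) :=
  MulAut.conj (QuotientGroup.mk (SpecialLinearGroup.transvection hij 1))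

/-- For every prime `r > 3` and every finite field `F` such that the number of elements of `F` has
order `r - 1` modulo `r`, the group `S = PSL_{r-1}(F)` is nonabelian simple of order divisible by
`r`, and its elementary transvections `x` have order the characteristic of `F` and satisfy
`β_{r,S}(x) = b(r)`. -/
theorem main (r : ℕ) (hr : r.Prime) (h3 : 3 < r) (F : Type) [Field F] [Finite F]
    (hord : orderOf ((Nat.card F : ℕ) : ZMod r) = r - 1) :
    IsSimpleGroup (Matrix.ProjectiveSpecialLinearGroup (Fin (r - 1)) F) ∧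
    (∃ u v : Matrix.ProjectiveSpecialLinearGroup (Fin (r - 1)) F, u * v ≠ v * u) ∧
    r ∣ Nat.card (Matrix.ProjectiveSpecialLinearGroup (Fin (r - 1)) F) ∧
    ∀ (i j : Fin (r - 1)) (hij : i ≠ j), orderOf (x F hij) = ringChar F ∧
      beta r (Matrix.ProjectiveSpecialLinearGroup (Fin (r - 1)) F) (x F hij) = b r := by
  have hc : CharP F (ringChar F) := ringChar.charP F
  have hp : Fact (ringChar F).Prime := ⟨CharP.char_is_prime F _⟩
  have hrn : r = (r - 1) + 1 := by omega
  have h01 : (⟨0, by omega⟩ : Fin (r - 1)) ≠ ⟨1, by omega⟩ := by simp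
  refine ⟨simple (by omega), nonabelian (by omega),
    (beta_eq (p := ringChar F) hr h3 hrn hord h01).2, fun i j hij => ⟨?_, ?_⟩⟩
  · exact orderOf_x (by omega) hij
  · have h := (beta_eq (p := ringChar F) hr h3 hrn hord hij).1
    have hb : b r = r - 1 := by
      unfold b
      rw [if_neg (by omega)]
    rw [hb]
    exact h

/-- **Result.**  (1) For every prime `r > 3` and every finite field `F` such that the number of
elements of `F` has order `r - 1` modulo `r`, the group `S = PSL_{r-1}(F)` is nonabelian simple of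
order divisible by `r`, and its elementary transvections `x` have order the characteristic of `F`
and satisfy `β_{r,S}(x) = b(r)`.  (2) So for every prime `r > 3` and every `N` there are a prime
`p > N`, a nonabelian finite simple group `S` of order divisible by `r` and an automorphism `x` of
`S` of order `p` with `β_{r,S}(x) = b(r)`.  (3) In particular the answer to Q1 is negative. -/
theorem result :
    (∀ r : ℕ, r.Prime → 3 < r → ∀ (F : Type) [Field F] [Finite F],
      orderOf ((Nat.card F : ℕ) : ZMod r) = r - 1 →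
      IsSimpleGroup (Matrix.ProjectiveSpecialLinearGroup (Fin (r - 1)) F) ∧
      (∃ u v : Matrix.ProjectiveSpecialLinearGroup (Fin (r - 1)) F, u * v ≠ v * u) ∧
      r ∣ Nat.card (Matrix.ProjectiveSpecialLinearGroup (Fin (r - 1)) F) ∧
      ∀ (i j : Fin (r - 1)) (hij : i ≠ j), orderOf (x F hij) = ringChar F ∧
        beta r (Matrix.ProjectiveSpecialLinearGroup (Fin (r - 1)) F) (x F hij) = b r) ∧
    (∀ r : ℕ, r.Prime → 3 < r → ∀ N : ℕ, ∃ p : ℕ, N < p ∧ p.Prime ∧
      ∃ (S : Type) (_ : Group S), Finite S ∧ IsSimpleGroup S ∧ (∃ u v : S, u * v ≠ v * u) ∧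
        r ∣ Nat.card S ∧ ∃ x : MulAut S, orderOf x = p ∧ beta r S x = b r) ∧
    ¬ Q1 := by
  have H2 : ∀ r : ℕ, r.Prime → 3 < r → ∀ N : ℕ, ∃ p : ℕ, N < p ∧ p.Prime ∧
      ∃ (S : Type) (_ : Group S), Finite S ∧ IsSimpleGroup S ∧ (∃ u v : S, u * v ≠ v * u) ∧
        r ∣ Nat.card S ∧ ∃ x : MulAut S, orderOf x = p ∧ beta r S x = b r := by
    intro r hr h3 N
    have : Fact r.Prime := ⟨hr⟩
    obtain ⟨g, hg⟩ := IsCyclic.exists_generator (α := (ZMod r)ˣ)
    have hgo : orderOf g = r - 1 := by
      rw [orderOf_eq_card_of_forall_mem_zpowers hg, Nat.card_eq_fintype_card,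
        ZMod.card_units_eq_totient, Nat.totient_prime hr]
    obtain ⟨p, hpN, hp, hpg⟩ := Nat.forall_exists_prime_gt_and_eq_mod g.isUnit N
    have hpf : Fact p.Prime := ⟨hp⟩
    have hord : orderOf ((Nat.card (ZMod p) : ℕ) : ZMod r) = r - 1 := by
      rw [Nat.card_eq_fintype_card, ZMod.card, hpg, orderOf_units, hgo]
    obtain ⟨e1, e2, e3, e4⟩ := main r hr h3 (ZMod p) hord
    have h01 : (⟨0, by omega⟩ : Fin (r - 1)) ≠ ⟨1, by omega⟩ := by simp
    refine ⟨p, hpN, hp, Matrix.ProjectiveSpecialLinearGroup (Fin (r - 1)) (ZMod p),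
      inferInstance, inferInstance, e1, e2, e3, x (ZMod p) h01, ?_, (e4 _ _ h01).2⟩
    rw [(e4 _ _ h01).1]
    exact ZMod.ringChar_zmod_n p
  refine ⟨fun r hr h3 F _ _ hord => main r hr h3 F hord, H2, fun hQ => ?_⟩
  obtain ⟨p, hp2, hp, S, _, hf, e1, e2, e3, x, e4, e5⟩ := H2 5 (by norm_num) (by norm_num) 2
  have hx : x ≠ 1 := by
    rintro rfl
    rw [orderOf_one] at e4
    omega
  have := hQ S e1 e2 5 (by norm_num) (by norm_num) e3 x hx e5
  omega

end Pool.Agent.Results.MP_462fed_al.EveryPrime
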